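import Mathlib
import Pool.Agent.Q94.SoficData

/-! # Soficity of a monoid is not determined by the right translation action of its units -/

namespace Pool.Agent.Results.MP_6908e1_al.SameUnitAction

open Pool.Agent.Q94.Sofic

/-- the `J`-class of the identity: `{x | MxM = M}` -/
def JOne (M : Type*) [Monoid M] : Set M := {x | {w | ∃ r s : M, w = r * x * s} = Set.univ}

/-- change of the multiplication flag -/
def swap {b b' : Bool} : Tri dat b → Tri dat b'
  | .g x => .g x
  | .u p => .u p
  | .t c => .t c
  | .z => .z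

theorem swap_swap {b b' : Bool} (x : Tri dat b) : (swap (swap x : Tri dat b') : Tri dat b) = x := by
  cases x <;> rfl

/-- the bijection -/
def rho : Tri dat false ≃ Tri dat true := ⟨swap, swap, swap_swap, swap_swap⟩

theorem jOne (b : Bool) : ∀ x ∈ JOne (Tri dat b), IsUnit x := by
  intro x hx
  apply Tri.isUnit_of_J
  intro w
  have h : w ∈ {w | ∃ r s : Tri dat b, w = r * x * s} := by
    have hx' : {w | ∃ r s : Tri dat b, w = r * x * s} = Set.univ := hx
    rw [hx']
    trivial
  exact h

/-- **The answer to Q1 is negative.**  There are monoids `M` and `N`, in each of which the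
`J`-class of the identity is the group of units, and a bijection `ρ : M → N` which restricts to an
isomorphism of the groups of units and satisfies `ρ(st) = ρ(s)ρ(t)` for all `s ∈ M` and all units
`t`, such that `M` is sofic and `N` is not. -/
theorem result : ∃ (M N : Type) (_ : Monoid M) (_ : Monoid N) (ρ : M ≃ N),
    (∀ x ∈ JOne M, IsUnit x) ∧ (∀ x ∈ JOne N, IsUnit x) ∧
    (∃ e : Mˣ ≃* Nˣ, ∀ t : Mˣ, ((e t : Nˣ) : N) = ρ t) ∧
    (∀ (s : M) (t : Mˣ), ρ (s * t) = ρ s * ρ t) ∧ IsSofic M ∧ ¬ IsSofic N := by
  refine ⟨Tri dat false, Tri dat true, inferInstance, inferInstance, rho, jOne false, jOne true,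
    ⟨(Tri.unitsEquiv dat false).symm.trans (Tri.unitsEquiv dat true), ?_⟩, ?_, null_is_sofic,
    tri_not_sofic⟩
  · intro t
    obtain ⟨x, rfl⟩ := (Tri.unitsEquiv dat false).surjective t
    rw [MulEquiv.trans_apply, MulEquiv.symm_apply_apply, Tri.unitsEquiv_val, Tri.unitsEquiv_val]
    rfl
  · intro s t
    obtain ⟨x, rfl⟩ := (Tri.unitsEquiv dat false).surjective t
    rw [Tri.unitsEquiv_val]
    cases s <;> rfl

end Pool.Agent.Results.MP_6908e1_al.SameUnitAction
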